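import Pool.Agent.Helper42.FR.Stmts

set_option autoImplicit false

namespace Pool.Agent.Helper92.FR

open Matrix Pool.Agent.Helper81.Fmr Pool.Agent.Helper42.FR

universe u

section
variable {F : Type u} [Field F] {V μ : Type} [DecidableEq V]

/-- the explicit completion -/
def MM (S : Sys F V μ) {b : ℕ} (z : V → Matrix (Fin b) (Fin b) F) :
    Matrix ((Fin 3 ⊕ Option (V × Fin 3)) × Fin b) ((Fin 3 ⊕ ((V × Bool) ⊕ μ)) × Fin b) F :=
  Matrix.of fun x y => Mz S z x.1 y.1 x.2 y.2

theorem approx' [Fintype V] [Fintype μ] (S : Sys F V μ) (b : ℕ)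
    (z : V → Matrix (Fin b) (Fin b) F)
    (hk : ∀ i a, S.k i = some a → z i = a • 1)
    (s : Finset (((V × Bool) ⊕ μ) × Fin b))
    (hm : ∀ m c, (Sum.inr m, c) ∉ s → ∀ e, (z (S.l m) * z (S.r m)) e c = z (S.o m) e c)
    (hd : ∀ i j a, i ≠ j → S.d i j = some a → ∀ c, (Sum.inl (j, false), c) ∉ s → ∀ e,
      (z i - z j) e c = (a • (1 : Matrix (Fin b) (Fin b) F)) e c) :
    IsCompletion (pm S) b (MM S z) ∧ (MM S z).rank ≤ 3 * b + s.card := by
  classical
  set U : Matrix ((Fin 3 ⊕ Option (V × Fin 3)) × Fin b) (Fin 3 × Fin b) F :=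
    Matrix.of fun x y => Mz S z x.1 (Sum.inl y.1) x.2 y.2 with hU
  set W : Matrix (Fin 3 × Fin b) ((Fin 3 ⊕ ((V × Bool) ⊕ μ)) × Fin b) F :=
    Matrix.of fun x y => Mz S z (Sum.inl x.1) y.1 x.2 y.2 with hW
  set D : Matrix ((Fin 3 ⊕ Option (V × Fin 3)) × Fin b) ((Fin 3 ⊕ ((V × Bool) ⊕ μ)) × Fin b) F :=
    Matrix.of fun x y => match x.1, y.1 with
      | Sum.inr i, Sum.inr j => Dz S z i j x.2 y.2
      | _, _ => 0 with hD
  refine ⟨?_, ?_⟩
  · intro i j a h k l
    simp only [MM, Matrix.of_apply]
    rw [Mz_spec S z hk i j a h]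
    simp [Matrix.one_apply]
  · have hdec : MM S z = U * W + D := by
      ext ⟨i, k⟩ ⟨j, l⟩
      simp only [MM, hU, hW, hD, Matrix.of_apply, Matrix.add_apply, Matrix.mul_apply]
      rw [Fintype.sum_prod_type]
      have h2 : ∀ x : Fin 3, (∑ y, Mz S z i (Sum.inl x) k y * Mz S z (Sum.inl x) j y l) =
          (Mz S z i (Sum.inl x) * Mz S z (Sum.inl x) j) k l := fun x => rfl
      simp only [h2]
      rw [← Matrix.sum_apply, ]
      rcases i with x | i
      · rcases j with y | j
        · simp [Mz]
        · simp [Mz]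
      · rcases j with y | j
        · simp [Mz]
        · simp only [Mz, Matrix.add_apply]
    rw [hdec]
    refine le_trans (rank_add_le' _ _) (add_le_add ?_ ?_)
    · refine le_trans (rank_mul_le_left _ _) (le_trans (rank_le_card_width _) ?_)
      simp
    · refine le_trans (rank_le_cols D (s.map ⟨fun x => (Sum.inr x.1, x.2), ?_⟩) ?_) ?_
      · intro x y hxy
        simp only [Prod.mk.injEq, Sum.inr.injEq] at hxy
        exact Prod.ext hxy.1 hxy.2
      · rintro ⟨j, c⟩ hj ⟨i, k⟩
        rcases i with x | i
        · simp [hD]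
        rcases j with y | j
        · simp [hD]
        have hjs : (j, c) ∉ s := by
          intro hh
          apply hj
          simp only [Finset.mem_map]
          exact ⟨(j, c), hh, rfl⟩
        simp only [hD, Matrix.of_apply]
        rcases i with _ | ⟨i, e⟩
        · rfl
        · rcases j with ⟨j, bb⟩ | m
          · rcases bb with _ | _
            · fin_cases e
              · rfl
              · change (if i = j then 0 else (S.d i j).elim 0 (fun a => a • 1 - (z i - z j)) :
                    Matrix (Fin b) (Fin b) F) k c = 0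
                by_cases hij : i = j
                · simp [hij]
                · simp only [hij, if_false]
                  rcases hdd : S.d i j with _ | a
                  · simp
                  · have := hd i j a hij hdd c hjs k
                    simp only [Option.elim]
                    rw [Matrix.sub_apply, this, sub_self]
              · rfl
            · fin_cases e <;> rfl
          · fin_cases e
            · change (if S.l m = i then z (S.o m) - z i * z (S.r m) else 0 :
                    Matrix (Fin b) (Fin b) F) k c = 0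
              by_cases hij : S.l m = i
              · subst hij
                simp only [if_true]
                rw [Matrix.sub_apply, hm m c hjs k, sub_self]
              · simp [hij]
            · rfl
            · rfl
      · simp

theorem blk_MM (S : Sys F V μ) {b : ℕ} (z : V → Matrix (Fin b) (Fin b) F) (v : V) :
    blk (MM S z) (Sum.inr (some (v, 1))) (Sum.inl 2) = z v := by
  ext k l
  rfl

end

theorem st_CO (F : Type u) [Field F] (h1 : ST_UP F) : ST_CO F := by
  classical
  intro η hη
  set N : ℕ := pr.length with hN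
  have hN1 : (0 : ℝ) < (N : ℝ) + 1 := by positivity
  obtain ⟨b, hb, z, hk, he, bad, hbad, hm, hd⟩ := h1 (η / ((N : ℝ) + 1)) (div_pos hη hN1)
  set s : Finset (((Vr × Bool) ⊕ Fin pr.length) × Fin b) :=
    ((Finset.univ : Finset (Fin pr.length)).map ⟨Sum.inr, Sum.inr_injective⟩) ×ˢ bad with hs
  have hcard : s.card = N * bad.card := by
    rw [hs, Finset.card_product, Finset.card_map, Finset.card_univ, Fintype.card_fin]
  obtain ⟨hc, hr⟩ := approx' (SY F) b z hk s
    (fun m c hc e => hm m c (fun hcb => hc (by
      rw [hs, Finset.mem_product]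
      exact ⟨Finset.mem_map.2 ⟨m, Finset.mem_univ _, rfl⟩, hcb⟩)) e)
    (fun i j a hij hda c _ e => by rw [hd i j a hij hda])
  refine ⟨b, hb, MM (SY F) z, hc, ?_, ?_⟩
  · have h2 : ((MM (SY F) z).rank : ℝ) ≤ 3 * b + s.card := by exact_mod_cast hr
    have h3 : (s.card : ℝ) ≤ η * b := by
      rw [hcard]
      push_cast
      have h4 : (N : ℝ) * bad.card ≤ N * (η / ((N : ℝ) + 1) * b) :=
        mul_le_mul_of_nonneg_left hbad (by positivity)
      refine h4.trans ?_
      have h5 : (N : ℝ) * (η / ((N : ℝ) + 1) * b) = (N / ((N : ℝ) + 1)) * (η * b) := by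
        field_simp
      rw [h5]
      have h6 : (N : ℝ) / ((N : ℝ) + 1) ≤ 1 := by
        rw [div_le_one hN1]
        linarith
      have h7 : (0 : ℝ) ≤ η * b := by positivity
      nlinarith
    linarith
  · rw [blk_MM]
    exact he

end Pool.Agent.Helper92.FR

#print axioms Pool.Agent.Helper92.FR.st_CO
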